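import Pool.Agent.H30.MRF.Conv

open MvPolynomial

namespace Pool.Agent.Results.MP_5bb273_ag.MaxRankFails

/-- **Restriction to a `(-1)`-curve need not have maximal rank.**

Seven general points of the plane over an algebraically closed field, `D = 6H - 2E_1 - … - 2E_6
- 3E_7` and `E = E_7`: the linear system `|D|` has no fixed component, and the restriction map
`H⁰(O_X(D)) → H⁰(O_E(D|_E))` is neither injective nor surjective. -/
theorem result (K : Type*) [Field K] [IsAlgClosed K] :
    ∃ Δ : MvPolynomial (Fin 7 × Fin 3) K, Δ ≠ 0 ∧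
      ∀ v : Fin 7 → Fin 3 → K, eval (fun q => v q.1 q.2) Δ ≠ 0 →
        ¬ MRF.HasFixedComponent v 6 MRF.mult ∧
        Set.MapsTo (MRF.rho v MRF.mult 6) (MRF.linSys v 6 MRF.mult) (MRF.excForms (v 6) 3) ∧
        ¬ Set.InjOn (MRF.rho v MRF.mult 6) (MRF.linSys v 6 MRF.mult) ∧
        ¬ Set.SurjOn (MRF.rho v MRF.mult 6) (MRF.linSys v 6 MRF.mult) (MRF.excForms (v 6) 3) :=
  MRF.main K

end Pool.Agent.Results.MP_5bb273_ag.MaxRankFails
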